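import Mathlib

namespace Pool.Agent.Results.MP_afae12_nt.Bounds

open Finset

/-- no element of A is a multiple of k distinct other elements of A -/
def Free (k : ℕ) (A : Finset ℕ) : Prop :=
  ¬ ∃ a ∈ A, ∃ B : Finset ℕ, B ⊆ A.erase a ∧ B.card = k ∧ ∀ b ∈ B, b ∣ a

/-- largest size of a k-multiple-free subset of 1..n -/
noncomputable def g (k n : ℕ) : ℕ :=
  sSup {s | ∃ A : Finset ℕ, A ⊆ Icc 1 n ∧ Free k A ∧ A.card = s}

theorem cnt (n q : ℕ) : ((Icc 1 n).filter fun x => ¬ q ∣ x).card + n / q = n := by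
  have h1 := Nat.Ioc_filter_dvd_card_eq_div n q
  have h2 := card_filter_add_card_filter_not (s := Ioc 0 n) (fun x => q ∣ x)
  have h3 : Icc 1 n = Ioc 0 n := rfl
  rw [h3]
  simp only [Nat.card_Ioc] at h2
  omega

theorem up (K n : ℕ) (A : Finset ℕ) (hA : A ⊆ Icc 1 n) (h : Free K A) :
    A.card ≤ n - n / 2 ^ K := by
  classical
  have h1 : ∀ a : ℕ, ∃ k m : ℕ, a ≠ 0 → Odd m ∧ a = 2 ^ k * m := fun a => by
    by_cases e : a = 0
    · exact ⟨0, 0, fun h => absurd e h⟩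
    · obtain ⟨k, m, h⟩ := Nat.exists_eq_two_pow_mul_odd e
      exact ⟨k, m, fun _ => h⟩
  choose k m hkm using h1
  have hk : ∀ a ∈ A, Odd (m a) ∧ a = 2 ^ k a * m a := fun a ha => by
    have := mem_Icc.1 (hA ha)
    exact hkm a (by omega)
  have eq : ∀ a ∈ A, ∀ b ∈ A, m a = m b → k a = k b → a = b := fun a ha b hb e l => by
    rw [(hk a ha).2, (hk b hb).2, e, l]
  let R : ℕ → Finset ℕ := fun a => A.filter fun b => m b = m a ∧ k b < k a
  have r1 : ∀ a ∈ A, (R a).card < K := by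
    intro a ha
    by_contra c
    obtain ⟨B, b1, b2⟩ := exists_subset_card_eq (not_lt.1 c)
    refine h ⟨a, ha, B, fun b hb => ?_, b2, fun b hb => ?_⟩
    · obtain ⟨p1, p2, p3⟩ := mem_filter.1 (b1 hb)
      exact mem_erase.2 ⟨by rintro rfl; omega, p1⟩
    · obtain ⟨p1, p2, p3⟩ := mem_filter.1 (b1 hb)
      rw [(hk a ha).2, (hk b p1).2, p2]
      exact Nat.mul_dvd_mul_right (pow_dvd_pow _ p3.le) _
  have r2 : ∀ a ∈ A, (R a).card ≤ k a := by
    intro a _
    rw [← card_range (k a)]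
    refine card_le_card_of_injOn k (fun b hb => mem_range.2 (mem_filter.1 hb).2.2) ?_
    intro b hb c hc e
    obtain ⟨p1, p2, -⟩ := mem_filter.1 hb
    obtain ⟨q1, q2, -⟩ := mem_filter.1 hc
    exact eq b p1 c q1 (p2.trans q2.symm) e
  have r3 : ∀ a ∈ A, ∀ b ∈ A, m a = m b → k a < k b → (R a).card < (R b).card := by
    intro a ha b _ e l
    refine card_lt_card ⟨fun c hc => ?_, fun s => ?_⟩
    · obtain ⟨p1, p2, p3⟩ := mem_filter.1 hc
      exact mem_filter.2 ⟨p1, p2.trans e, p3.trans l⟩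
    · exact lt_irrefl _ (mem_filter.1 (s (mem_filter.2 ⟨ha, e, l⟩))).2.2
  have nd : ∀ i j x : ℕ, Odd x → i < j → ¬ 2 ^ j ∣ 2 ^ i * x := by
    intro i j x hx l d
    have d2 : 2 ^ i * 2 ∣ 2 ^ i * x := (pow_succ 2 i ▸ pow_dvd_pow 2 l).trans d
    have := (Nat.mul_dvd_mul_iff_left (by positivity)).1 d2
    obtain ⟨t, rfl⟩ := hx
    omega
  have := card_le_card_of_injOn (s := A) (t := (Icc 1 n).filter fun x => ¬ 2 ^ K ∣ x)
    (fun a => 2 ^ (R a).card * m a) (by
      intro a ha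
      have h2 := mem_Icc.1 (hA ha)
      obtain ⟨h3, h4⟩ := hk a ha
      have h5 : 2 ^ (R a).card * m a ≤ 2 ^ k a * m a :=
        Nat.mul_le_mul_right _ (Nat.pow_le_pow_right (by norm_num) (r2 a ha))
      exact mem_filter.2 ⟨mem_Icc.2 ⟨Nat.mul_pos (by positivity) h3.pos, by
        show 2 ^ (R a).card * m a ≤ n
        omega⟩, nd _ _ _ h3 (r1 a ha)⟩) (by
      intro a ha b hb e
      simp only at e
      have e1 : (R a).card = (R b).card := by
        rcases lt_trichotomy (R a).card (R b).card with l | l | l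
        · exact absurd (e ▸ dvd_mul_right _ _) (nd _ _ _ (hk a ha).1 l)
        · exact l
        · exact absurd (e ▸ dvd_mul_right _ _) (nd _ _ _ (hk b hb).1 l)
      rw [e1] at e
      have e2 : m a = m b := Nat.eq_of_mul_eq_mul_left (by positivity) e
      rcases lt_trichotomy (k a) (k b) with l | l | l
      · exact absurd e1 (r3 a ha b hb e2 l).ne
      · exact eq a ha b hb e2 l
      · exact absurd e1 (r3 b hb a ha e2.symm l).ne')
  have := cnt n (2 ^ K)
  omega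

theorem low (k n : ℕ) (hk : 1 ≤ k) : Free k (Ioc (n / (k + 1)) n) := by
  rintro ⟨a, ha, B, b1, b2, b3⟩
  have h1 := mem_Ioc.1 ha
  have h0 : n < (k + 1) * (n / (k + 1) + 1) := Nat.lt_mul_div_succ n (by omega)
  have := card_le_card_of_injOn (s := B) (t := Icc 2 k) (fun b => a / b) (by
    intro b hb
    obtain ⟨p1, p2⟩ := mem_erase.1 (b1 hb)
    have p3 := mem_Ioc.1 p2
    obtain ⟨x, rfl⟩ := b3 b hb
    have hb0 : 0 < b := lt_of_le_of_lt (Nat.zero_le _) p3.1
    simp only [Nat.mul_div_cancel_left x hb0, coe_Icc, Set.mem_Icc]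
    constructor
    · rcases x with _ | _ | x
      · simp at h1
      · simp at p1
      · omega
    · by_contra c
      have : (n / (k + 1) + 1) * (k + 1) ≤ b * x := Nat.mul_le_mul (by omega) (by omega)
      nlinarith) (by
    intro b hb c hc e
    simp only at e
    have p1 := Nat.div_mul_cancel (b3 b hb)
    have p2 := Nat.div_mul_cancel (b3 c hc)
    rw [← e] at p2
    have p3 : 0 < a / b := by
      rcases Nat.eq_zero_or_pos (a / b) with z | z
      · rw [z, zero_mul] at p1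
        exact absurd (lt_of_le_of_lt (Nat.zero_le _) h1.1) (by omega)
      · exact z
    exact Nat.eq_of_mul_eq_mul_left p3 (p1.trans p2.symm))
  simp only [Nat.card_Icc] at this
  omega

theorem result (k n : ℕ) (hk : 1 ≤ k) :
    n - n / (k + 1) ≤ g k n ∧ g k n ≤ n - n / 2 ^ k := by
  have hb : ∀ s ∈ {s | ∃ A : Finset ℕ, A ⊆ Icc 1 n ∧ Free k A ∧ A.card = s},
      s ≤ n - n / 2 ^ k := by
    rintro s ⟨A, h1, h2, rfl⟩
    exact up k n A h1 h2
  have hm : n - n / (k + 1) ∈ {s | ∃ A : Finset ℕ, A ⊆ Icc 1 n ∧ Free k A ∧ A.card = s} :=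
    ⟨_, fun x hx => mem_Icc.2 ⟨lt_of_le_of_lt (Nat.zero_le _) (mem_Ioc.1 hx).1, (mem_Ioc.1 hx).2⟩,
      low k n hk, Nat.card_Ioc _ _⟩
  exact ⟨le_csSup ⟨_, hb⟩ hm, csSup_le ⟨_, hm⟩ hb⟩

end Pool.Agent.Results.MP_afae12_nt.Bounds
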